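import Pool.Agent.Y472.K.Defs

/-!
# Turk's head knots (project of helper472): the bounds for `n ≥ 8` (job TK-G6)

The bound of the one-sided pairs is at most the rate of the symmetric pair of difference `1 / 2`,
which is smaller than the maximal rate for all `n ≥ 4`; only `yn n / 2 < Es n` needs numbers.
-/

set_option autoImplicit false

namespace Pool.Agent.Y51.TK

open Finset Filter Topology MeasureTheory Pool.Agent.W711.HT Pool.Agent.Y472.K
open scoped Real

/-- `log (2 sin π t)` -/
noncomputable def Ls (t : ℝ) : ℝ := Real.log (2 * Real.sin (π * t))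

/-- `log (2 C + 2 cos 2 π s)` -/
noncomputable def Fc (C s : ℝ) : ℝ := Real.log (2 * C + 2 * Real.cos (2 * π * s))

lemma sin_pos' {t : ℝ} (h0 : 0 < t) (h1 : t < 1) : 0 < Real.sin (π * t) := by
  have hpi := Real.pi_pos
  apply Real.sin_pos_of_pos_of_lt_pi (mul_pos hpi h0)
  have := mul_lt_mul_of_pos_left h1 hpi
  linarith

lemma Ls_eq {t : ℝ} (h0 : 0 < t) (h1 : t < 1) :
    Ls t = Real.log 2 + Real.log (Real.sin (π * t)) := by
  rw [Ls, Real.log_mul (by norm_num) (sin_pos' h0 h1).ne']

lemma ii_aux : IntervalIntegrable (fun t => Real.log (Real.sin (π * t))) volume 0 (1 / 2) := by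
  have h := (intervalIntegrable_log_sin (a := 0) (b := π / 2)).comp_mul_left (c := π)
  have e : π / 2 / π = 1 / 2 := by
    field_simp
  rw [zero_div, e] at h
  exact h

lemma ii_half : IntervalIntegrable Ls volume 0 (1 / 2) := by
  refine IntervalIntegrable.congr ?_
    ((intervalIntegrable_const (c := Real.log 2)).add ii_aux)
  intro t ht
  rw [Set.uIoc_of_le (by norm_num)] at ht
  exact (Ls_eq ht.1 (by linarith [ht.2])).symm

lemma ii {a b : ℝ} (ha : 0 ≤ a) (hb : 0 ≤ b) (ha' : a ≤ 1 / 2) (hb' : b ≤ 1 / 2) :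
    IntervalIntegrable Ls volume a b := by
  apply ii_half.mono_set
  rw [Set.uIcc_of_le (by norm_num : (0 : ℝ) ≤ 1 / 2)]
  exact Set.uIcc_subset_Icc ⟨ha, ha'⟩ ⟨hb, hb'⟩

lemma int_half : ∫ t in (0 : ℝ)..(1 / 2), Ls t = 0 := by
  have h1 : ∫ t in (0 : ℝ)..(1 / 2), Ls t =
      ∫ t in (0 : ℝ)..(1 / 2), (Real.log 2 + Real.log (Real.sin (π * t))) := by
    refine intervalIntegral.integral_congr_ae (Eventually.of_forall fun t ht => ?_)
    rw [Set.uIoc_of_le (by norm_num)] at ht
    exact Ls_eq ht.1 (by linarith [ht.2])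
  rw [h1, intervalIntegral.integral_add intervalIntegrable_const ii_aux,
    intervalIntegral.integral_comp_mul_left (fun t => Real.log (Real.sin t)) Real.pi_pos.ne']
  have e : π * (1 / 2) = π / 2 := by ring
  rw [mul_zero, e, integral_log_sin_zero_pi_div_two, intervalIntegral.integral_const]
  simp only [smul_eq_mul]
  field_simp
  ring

lemma Lc_eq {δ : ℝ} (h0 : 0 ≤ δ) (h1 : δ ≤ 1 / 2) : Lc δ = ∫ t in δ..(1 / 2), Ls t := by
  have h := intervalIntegral.integral_add_adjacent_intervals (ii le_rfl h0 (by norm_num) h1)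
    (ii h0 (by norm_num) h1 le_rfl)
  rw [int_half] at h
  change -∫ t in (0 : ℝ)..δ, Ls t = _
  linarith

lemma Fc_cont {C : ℝ} (hC : 1 < C) : Continuous (Fc C) := by
  unfold Fc
  refine Continuous.log (by fun_prop) fun s => ?_
  have := Real.neg_one_le_cos (2 * π * s)
  linarith

lemma Ls_cont {a b : ℝ} (ha : 0 < a) (hb : b < 1) : ContinuousOn Ls (Set.Icc a b) := by
  unfold Ls
  refine ContinuousOn.log (by fun_prop) fun t ht => ?_
  have := sin_pos' (lt_of_lt_of_le ha ht.1) (lt_of_le_of_lt ht.2 hb)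
  positivity

/-- the rate of the symmetric pairs -/
lemma lf_zero (y t : ℝ) :
    lf 0 y t = Real.log (2 * Real.cosh y - 2 * Real.cos (2 * π * t)) := by
  unfold lf
  have h1 : (((0 : ℝ) : ℂ) + (y : ℂ) * Complex.I) = (y : ℂ) * Complex.I := by simp
  rw [h1, Complex.cos_mul_I, ← Complex.ofReal_cosh]
  have h2 : (2 : ℂ) * ((Real.cosh y : ℝ) : ℂ) - 2 * ((Real.cos (2 * π * t) : ℝ) : ℂ) =
      ((2 * Real.cosh y - 2 * Real.cos (2 * π * t) : ℝ) : ℂ) := by push_cast; ring
  rw [h2, Complex.norm_real, Real.norm_eq_abs, Real.log_abs]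

lemma sym_int {C : ℝ} (hC : 1 < C) (b : ℝ) :
    1 / 2 * ∫ t in b..(1 - b), Real.log (2 * C - 2 * Real.cos (2 * π * t)) =
      ∫ s in (0 : ℝ)..(1 / 2 - b), Fc C s := by
  have hc := Fc_cont hC
  have h1 : ∫ t in b..(1 - b), Real.log (2 * C - 2 * Real.cos (2 * π * t)) =
      ∫ t in b..(1 - b), Fc C (t - 1 / 2) := by
    refine intervalIntegral.integral_congr fun t _ => ?_
    simp only [Fc]
    have e : 2 * π * (t - 1 / 2) = 2 * π * t - π := by ring
    rw [e, Real.cos_sub_pi]
    congr 1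
    ring
  have h2 : ∫ s in (b - 1 / 2)..(0 : ℝ), Fc C s = ∫ s in (0 : ℝ)..(1 / 2 - b), Fc C s := by
    have h3 := intervalIntegral.integral_comp_neg (a := b - 1 / 2) (b := 0) (fun s => Fc C s)
    rw [neg_zero, neg_sub] at h3
    rw [← h3]
    refine intervalIntegral.integral_congr fun s _ => ?_
    simp only [Fc]
    have e : 2 * π * -s = -(2 * π * s) := by ring
    rw [e, Real.cos_neg]
  rw [h1, intervalIntegral.integral_comp_sub_right (fun s => Fc C s)]
  have e : 1 - b - 1 / 2 = 1 / 2 - b := by ring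
  rw [e, ← intervalIntegral.integral_add_adjacent_intervals (b := 0) (hc.intervalIntegrable _ _)
    (hc.intervalIntegrable _ _), h2]
  ring

lemma Es_eq (hPAR : S_PAR) {n : ℕ} (hn : 4 ≤ n) :
    Es n = (∫ t in (1 - 2 * bs n)..(1 / 2), Ls t) + ∫ s in (0 : ℝ)..(1 / 2 - bs n), Fc (Ch n) s := by
  obtain ⟨h1, h2, h3, h4, h5, h6, h7, h8, h9, h10, h11, h12⟩ := hPAR n hn
  unfold Es Ep
  have e : 1 - bs n - bs n = 1 - 2 * bs n := by ring
  rw [e, Lc_eq (by linarith) (by linarith), ← sym_int h3]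
  congr 2
  refine intervalIntegral.integral_congr fun t _ => ?_
  rw [lf_zero, h6]

/-- the second bound -/
lemma half_lt (hPAR : S_PAR) {n : ℕ} (hn : 4 ≤ n) :
    ∫ s in (0 : ℝ)..(1 / 4), Fc (Ch n) s < Es n := by
  rw [Es_eq hPAR hn]
  obtain ⟨h1, h2, h3, h4, h5, h6, h7, h8, h9, h10, h11, h12⟩ := hPAR n hn
  have hc := Fc_cont h3
  set D := 1 - 2 * bs n with hD
  have eD : 1 / 2 - bs n = D / 2 := by rw [hD]; ring
  rw [eD]
  have hI := intervalIntegral.integral_add_adjacent_intervals (a := 0) (b := D / 2) (c := 1 / 4)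
    (hc.intervalIntegrable (μ := volume) _ _) (hc.intervalIntegrable _ _)
  have hJ : ∫ s in (D / 2)..(1 / 4), Fc (Ch n) s =
      ∫ t in D..(1 / 2), 1 / 2 * Fc (Ch n) (1 / 2 * t) := by
    rw [intervalIntegral.integral_const_mul,
      intervalIntegral.integral_comp_mul_left (fun s => Fc (Ch n) s) (by norm_num)]
    have e1 : 1 / 2 * D = D / 2 := by ring
    have e2 : (1 : ℝ) / 2 * (1 / 2) = 1 / 4 := by norm_num
    rw [e1, e2, smul_eq_mul]
    ring
  have hD1 : 1 / 3 < D := by linarith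
  have hD2 : D < 1 / 2 := by linarith
  have hlt : ∫ t in D..(1 / 2), 1 / 2 * Fc (Ch n) (1 / 2 * t) < ∫ t in D..(1 / 2), Ls t := by
    have hpt : ∀ t, D < t → t ≤ 1 / 2 → 1 / 2 * Fc (Ch n) (1 / 2 * t) < Ls t := by
      intro t ht ht'
      have hs := sin_pos' (t := t) (by linarith) (by linarith)
      have e1 : 2 * π * (1 / 2 * t) = π * t := by ring
      have hcos : Real.cos (π * t) < ga n - 1 / 2 := by
        have e2 : Real.cos (π * D) = ga n - 1 / 2 := by
          rw [hD, show π * (1 - 2 * bs n) = π - 2 * π * bs n by ring, Real.cos_pi_sub, h9]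
          ring
        rw [← e2]
        have hpi := Real.pi_pos
        apply Real.cos_lt_cos_of_nonneg_of_le_pi
        · positivity
        · have := mul_le_mul_of_nonneg_left (show t ≤ 1 by linarith) hpi.le
          linarith
        · exact mul_lt_mul_of_pos_left ht hpi
      have hcos0 : 0 ≤ Real.cos (π * t) := by
        have hpi := Real.pi_pos
        apply Real.cos_nonneg_of_neg_pi_div_two_le_of_le
        · have : 0 < π * t := mul_pos hpi (by linarith)
          linarith
        · have := mul_le_mul_of_nonneg_left ht' hpi.le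
          linarith
      have hsc := Real.sin_sq_add_cos_sq (π * t)
      have hlog : 2 * Ls t = Real.log ((2 * Real.sin (π * t)) ^ 2) := by
        rw [Real.log_pow, Ls]
        norm_num
      have hlt : Fc (Ch n) (1 / 2 * t) < Real.log ((2 * Real.sin (π * t)) ^ 2) := by
        rw [Fc, e1]
        apply Real.log_lt_log
        · linarith
        · have hC : Ch n = 2 + ga n - 2 * ga n ^ 2 := rfl
          rw [hC]
          nlinarith
      linarith
    apply intervalIntegral.integral_lt_integral_of_continuousOn_of_le_of_exists_lt hD2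
    · apply Continuous.continuousOn
      exact continuous_const.mul (hc.comp (continuous_const.mul continuous_id))
    · exact Ls_cont (by linarith) (by norm_num)
    · exact fun t ht => (hpt t ht.1 ht.2).le
    · exact ⟨1 / 2, ⟨hD2.le, le_rfl⟩, hpt _ hD2 le_rfl⟩
  linarith

/-- the bound of the one-sided pairs -/
lemma side_le {C δ : ℝ} (hC : 1 < C) (h0 : 0 ≤ δ) (h1 : δ ≤ 1 / 2) :
    Lc δ + 1 / 2 * ∫ s in (0 : ℝ)..δ, Real.log (2 * C + 2 * |Real.cos (2 * π * s)|) ≤
      ∫ s in (0 : ℝ)..(1 / 4), Fc C s := by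
  have hc := Fc_cont hC
  set Fa : ℝ → ℝ := fun s => Real.log (2 * C + 2 * |Real.cos (2 * π * s)|) with hFa
  have hac : Continuous Fa := by
    rw [hFa]
    refine Continuous.log (by fun_prop) fun s => ?_
    have := abs_nonneg (Real.cos (2 * π * s))
    linarith
  have e1 : Lc δ + 1 / 2 * ∫ s in (0 : ℝ)..δ, Fa s = ∫ s in (0 : ℝ)..δ, (1 / 2 * Fa s - Ls s) := by
    rw [intervalIntegral.integral_sub ((hac.intervalIntegrable _ _).const_mul _)
      (ii le_rfl h0 (by norm_num) h1), intervalIntegral.integral_const_mul]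
    change -(∫ t in (0 : ℝ)..δ, Ls t) + _ = _
    ring
  have e2 : ∫ s in (0 : ℝ)..(1 / 2), (1 / 2 * Fa s - Ls s) =
      1 / 2 * ∫ s in (0 : ℝ)..(1 / 2), Fa s := by
    rw [intervalIntegral.integral_sub ((hac.intervalIntegrable _ _).const_mul _) ii_half,
      intervalIntegral.integral_const_mul, int_half, sub_zero]
  have e3 : ∫ s in (0 : ℝ)..(1 / 4), Fa s = ∫ s in (0 : ℝ)..(1 / 4), Fc C s := by
    refine intervalIntegral.integral_congr fun s hs => ?_
    rw [Set.uIcc_of_le (by norm_num)] at hs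
    have hpi := Real.pi_pos
    have : 0 ≤ Real.cos (2 * π * s) := by
      apply Real.cos_nonneg_of_neg_pi_div_two_le_of_le
      · have : 0 ≤ 2 * π * s := mul_nonneg (by positivity) hs.1
        linarith
      · have := mul_le_mul_of_nonneg_left hs.2 (show 0 ≤ 2 * π by positivity)
        linarith
    simp only [hFa, Fc, abs_of_nonneg this]
  have e4 : ∫ s in (1 / 4 : ℝ)..(1 / 2), Fa s = ∫ s in (0 : ℝ)..(1 / 4), Fc C s := by
    rw [← e3]
    have h3 := intervalIntegral.integral_comp_sub_left (a := 1 / 4) (b := 1 / 2) Fa (1 / 2)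
    rw [show (1 : ℝ) / 2 - 1 / 2 = 0 by norm_num, show (1 : ℝ) / 2 - 1 / 4 = 1 / 4 by norm_num]
      at h3
    rw [← h3]
    refine intervalIntegral.integral_congr fun s _ => ?_
    simp only [hFa]
    rw [show 2 * π * (1 / 2 - s) = π - 2 * π * s by ring, Real.cos_pi_sub, abs_neg]
  have e5 := intervalIntegral.integral_add_adjacent_intervals (a := 0) (b := 1 / 4) (c := 1 / 2)
    (hac.intervalIntegrable (μ := volume) _ _) (hac.intervalIntegrable _ _)
  have hmono : ∫ s in (0 : ℝ)..δ, (1 / 2 * Fa s - Ls s) ≤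
      ∫ s in (0 : ℝ)..(1 / 2), (1 / 2 * Fa s - Ls s) := by
    apply intervalIntegral.integral_mono_interval le_rfl h0 h1
    · refine (ae_restrict_iff' measurableSet_Ioc).2 (Eventually.of_forall fun s hs => ?_)
      have hs' := sin_pos' (t := s) hs.1 (by linarith [hs.2])
      have hlog : 2 * Ls s = Real.log ((2 * Real.sin (π * s)) ^ 2) := by
        rw [Real.log_pow, Ls]
        norm_num
      have hle : Real.log ((2 * Real.sin (π * s)) ^ 2) ≤ Fa s := by
        rw [hFa]
        apply Real.log_le_log (by positivity)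
        have hcos : Real.cos (2 * π * s) = 1 - 2 * Real.sin (π * s) ^ 2 := by
          rw [show 2 * π * s = 2 * (π * s) by ring, Real.cos_two_mul, Real.cos_sq']
          ring
        have := neg_abs_le (Real.cos (2 * π * s))
        nlinarith
      change 0 ≤ 1 / 2 * Fa s - Ls s
      linarith
    · exact ((hac.intervalIntegrable _ _).const_mul _).sub ii_half
  rw [e1]
  linarith

/-- lower bound of an integral by symmetrization -/
lemma sym_low {φ : ℝ → ℝ} {a b m : ℝ} (hab : a ≤ b) (hφ : IntervalIntegrable φ volume a b)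
    (h : ∀ t ∈ Set.Icc a b, m ≤ φ t + φ (a + b - t)) : (b - a) * m / 2 ≤ ∫ t in a..b, φ t := by
  have h1 : ∫ t in a..b, φ (a + b - t) = ∫ t in a..b, φ t := by
    rw [intervalIntegral.integral_comp_sub_left (fun t => φ t)]
    congr 1 <;> ring
  have h2 : IntervalIntegrable (fun t => φ (a + b - t)) volume a b := by
    have h3 := (hφ.comp_sub_left (a + b)).symm
    rwa [show a + b - b = a by ring, show a + b - a = b by ring] at h3
  have h4 : ∫ _t in a..b, m ≤ ∫ t in a..b, (φ t + φ (a + b - t)) :=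
    intervalIntegral.integral_mono_on hab intervalIntegrable_const (hφ.add h2) h
  rw [intervalIntegral.integral_const, intervalIntegral.integral_add hφ h2, h1, smul_eq_mul] at h4
  linarith

lemma low_one : Real.log (2 * √3) / 12 ≤ ∫ t in (1 / 3 : ℝ)..(1 / 2), Ls t := by
  have h := sym_low (φ := Ls) (a := 1 / 3) (b := 1 / 2) (m := Real.log (2 * √3)) (by norm_num)
    (ii (by norm_num) (by norm_num) (by norm_num) (by norm_num)) ?_
  · refine le_trans (le_of_eq ?_) h
    ring
  · intro t ht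
    have hpi := Real.pi_pos
    have s1 := sin_pos' (t := t) (by linarith [ht.1]) (by linarith [ht.2])
    have s2 := sin_pos' (t := 1 / 3 + 1 / 2 - t) (by linarith [ht.2]) (by linarith [ht.1])
    rw [Ls, Ls, ← Real.log_mul (by positivity) (by positivity)]
    apply Real.log_le_log (by positivity)
    have e1 := Real.two_mul_sin_mul_sin (π * t) (π * (1 / 3 + 1 / 2 - t))
    have e2 : Real.cos (π * t + π * (1 / 3 + 1 / 2 - t)) = -(√3 / 2) := by
      rw [show π * t + π * (1 / 3 + 1 / 2 - t) = π - π / 6 by ring, Real.cos_pi_sub,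
        Real.cos_pi_div_six]
    have e3 : √3 / 2 ≤ Real.cos (π * t - π * (1 / 3 + 1 / 2 - t)) := by
      rw [← Real.cos_pi_div_six, ← Real.cos_abs (π * t - π * (1 / 3 + 1 / 2 - t))]
      apply Real.cos_le_cos_of_nonneg_of_le_pi (abs_nonneg _) (by linarith)
      rw [show π * t - π * (1 / 3 + 1 / 2 - t) = π * (2 * t - 5 / 6) by ring, abs_mul,
        abs_of_pos hpi]
      have : |2 * t - 5 / 6| ≤ 1 / 6 := abs_le.2 ⟨by linarith [ht.1], by linarith [ht.2]⟩
      calc π * |2 * t - 5 / 6| ≤ π * (1 / 6) := mul_le_mul_of_nonneg_left this hpi.le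
        _ = π / 6 := by ring
    nlinarith

lemma low_two {C : ℝ} (hC : 1 < C) :
    Real.log ((2 * C + 2) * (2 * C + 1)) / 12 ≤ ∫ s in (0 : ℝ)..(1 / 6), Fc C s := by
  have hc := Fc_cont hC
  have h := sym_low (φ := Fc C) (a := 0) (b := 1 / 6)
    (m := Real.log ((2 * C + 2) * (2 * C + 1))) (by norm_num)
    (hc.intervalIntegrable _ _) ?_
  · refine le_trans (le_of_eq ?_) h
    ring
  · intro t ht
    have hpi := Real.pi_pos
    have p1 : 0 < 2 * C + 2 * Real.cos (2 * π * t) := by
      linarith [Real.neg_one_le_cos (2 * π * t)]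
    have p2 : 0 < 2 * C + 2 * Real.cos (2 * π * (0 + 1 / 6 - t)) := by
      linarith [Real.neg_one_le_cos (2 * π * (0 + 1 / 6 - t))]
    rw [Fc, Fc, ← Real.log_mul p1.ne' p2.ne']
    apply Real.log_le_log (by positivity)
    have e1 := Real.two_mul_cos_mul_cos (2 * π * t) (2 * π * (0 + 1 / 6 - t))
    have e2 : Real.cos (2 * π * t + 2 * π * (0 + 1 / 6 - t)) = 1 / 2 := by
      rw [show 2 * π * t + 2 * π * (0 + 1 / 6 - t) = π / 3 by ring, Real.cos_pi_div_three]
    have habs : |2 * t - 1 / 6| ≤ 1 / 6 := abs_le.2 ⟨by linarith [ht.1], by linarith [ht.2]⟩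
    have e3 : 1 / 2 ≤ Real.cos (2 * π * t - 2 * π * (0 + 1 / 6 - t)) := by
      rw [← Real.cos_pi_div_three, ← Real.cos_abs (2 * π * t - 2 * π * (0 + 1 / 6 - t))]
      apply Real.cos_le_cos_of_nonneg_of_le_pi (abs_nonneg _) (by linarith)
      rw [show 2 * π * t - 2 * π * (0 + 1 / 6 - t) = 2 * π * (2 * t - 1 / 6) by ring, abs_mul,
        abs_of_pos (by positivity : 0 < 2 * π)]
      calc 2 * π * |2 * t - 1 / 6| ≤ 2 * π * (1 / 6) :=
            mul_le_mul_of_nonneg_left habs (by positivity)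
        _ = π / 3 := by ring
    have e4 := Real.cos_add_cos (2 * π * t) (2 * π * (0 + 1 / 6 - t))
    have e5 : Real.cos ((2 * π * t + 2 * π * (0 + 1 / 6 - t)) / 2) = √3 / 2 := by
      rw [show (2 * π * t + 2 * π * (0 + 1 / 6 - t)) / 2 = π / 6 by ring, Real.cos_pi_div_six]
    have e6 : √3 / 2 ≤ Real.cos ((2 * π * t - 2 * π * (0 + 1 / 6 - t)) / 2) := by
      rw [← Real.cos_pi_div_six,
        ← Real.cos_abs ((2 * π * t - 2 * π * (0 + 1 / 6 - t)) / 2)]
      apply Real.cos_le_cos_of_nonneg_of_le_pi (abs_nonneg _) (by linarith)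
      rw [show (2 * π * t - 2 * π * (0 + 1 / 6 - t)) / 2 = π * (2 * t - 1 / 6) by ring, abs_mul,
        abs_of_pos hpi]
      calc π * |2 * t - 1 / 6| ≤ π * (1 / 6) := mul_le_mul_of_nonneg_left habs hpi.le
        _ = π / 6 := by ring
    have s3 : √3 * √3 = 3 := Real.mul_self_sqrt (by norm_num)
    have e7 : 3 / 2 ≤ Real.cos (2 * π * t) + Real.cos (2 * π * (0 + 1 / 6 - t)) := by
      rw [e4, e5]
      have := mul_le_mul_of_nonneg_left e6 (show 0 ≤ 2 * (√3 / 2) by positivity)
      linarith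
    nlinarith

/-- the rate of the symmetric pair of difference `1 / 3` -/
lemma third_le (hPAR : S_PAR) {n : ℕ} (hn : 4 ≤ n) :
    (∫ t in (1 / 3 : ℝ)..(1 / 2), Ls t) + ∫ s in (0 : ℝ)..(1 / 6), Fc (Ch n) s ≤ Es n := by
  rw [Es_eq hPAR hn]
  obtain ⟨h1, h2, h3, h4, h5, h6, h7, h8, h9, h10, h11, h12⟩ := hPAR n hn
  have hc := Fc_cont h3
  set D := 1 - 2 * bs n with hD
  have eD : 1 / 2 - bs n = D / 2 := by rw [hD]; ring
  have hD1 : 1 / 3 < D := by linarith
  have hD2 : D < 1 / 2 := by linarith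
  rw [eD]
  have hI := intervalIntegral.integral_add_adjacent_intervals (a := 0) (b := 1 / 6) (c := D / 2)
    (hc.intervalIntegrable (μ := volume) _ _) (hc.intervalIntegrable _ _)
  have hI' := intervalIntegral.integral_add_adjacent_intervals (a := 1 / 3) (b := D) (c := 1 / 2)
    (ii (by norm_num) (by linarith) (by norm_num) hD2.le)
    (ii (by linarith) (by norm_num) hD2.le le_rfl)
  have hJ : ∫ s in (1 / 6)..(D / 2), Fc (Ch n) s =
      ∫ t in (1 / 3 : ℝ)..D, 1 / 2 * Fc (Ch n) (1 / 2 * t) := by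
    rw [intervalIntegral.integral_const_mul,
      intervalIntegral.integral_comp_mul_left (fun s => Fc (Ch n) s) (by norm_num)]
    have e1 : 1 / 2 * D = D / 2 := by ring
    have e2 : (1 : ℝ) / 2 * (1 / 3) = 1 / 6 := by norm_num
    rw [e1, e2, smul_eq_mul]
    ring
  have hle : ∫ t in (1 / 3 : ℝ)..D, Ls t ≤
      ∫ t in (1 / 3 : ℝ)..D, 1 / 2 * Fc (Ch n) (1 / 2 * t) := by
    refine intervalIntegral.integral_mono_on hD1.le
      (ii (by norm_num) (by linarith) (by norm_num) hD2.le)
      ((continuous_const.mul (hc.comp (continuous_const.mul continuous_id))).intervalIntegrable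
        _ _) ?_
    intro t ht
    have hs := sin_pos' (t := t) (by linarith [ht.1]) (by linarith [ht.2])
    have e1 : 2 * π * (1 / 2 * t) = π * t := by ring
    have hcos : ga n - 1 / 2 ≤ Real.cos (π * t) := by
      have e2 : Real.cos (π * D) = ga n - 1 / 2 := by
        rw [hD, show π * (1 - 2 * bs n) = π - 2 * π * bs n by ring, Real.cos_pi_sub, h9]
        ring
      rw [← e2]
      have hpi := Real.pi_pos
      apply Real.cos_le_cos_of_nonneg_of_le_pi
      · exact mul_nonneg hpi.le (by linarith [ht.1])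
      · have := mul_le_mul_of_nonneg_left (show D ≤ 1 by linarith) hpi.le
        linarith
      · exact mul_le_mul_of_nonneg_left ht.2 hpi.le
    have hsc := Real.sin_sq_add_cos_sq (π * t)
    have hlog : 2 * Ls t = Real.log ((2 * Real.sin (π * t)) ^ 2) := by
      rw [Real.log_pow, Ls]
      norm_num
    have hlt : Real.log ((2 * Real.sin (π * t)) ^ 2) ≤ Fc (Ch n) (1 / 2 * t) := by
      rw [Fc, e1]
      apply Real.log_le_log (by positivity)
      have hC : Ch n = 2 + ga n - 2 * ga n ^ 2 := rfl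
      rw [hC]
      nlinarith
    change Ls t ≤ 1 / 2 * Fc (Ch n) (1 / 2 * t)
    linarith
  linarith

lemma cosh_low (y : ℝ) (hy : 0 ≤ y) : 1 + y ^ 2 / 2 ≤ Real.cosh y := by
  have h1 : y / 2 ≤ Real.sinh (y / 2) := Real.self_le_sinh_iff.2 (by linarith)
  have h2 : Real.cosh y = 2 * Real.sinh (y / 2) ^ 2 + 1 := by
    have h3 := Real.cosh_two_mul (y / 2)
    rw [show 2 * (y / 2) = y by ring, Real.cosh_sq] at h3
    rw [h3]
    ring
  rw [h2]
  nlinarith

lemma exp_four : Real.exp 4 < 54.6 := by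
  have h1 := Real.exp_one_lt_d9
  have h2 : Real.exp 4 = Real.exp 1 ^ 4 := by
    rw [← Real.exp_nat_mul]
    norm_num
  rw [h2]
  calc Real.exp 1 ^ 4 < 2.7182818286 ^ 4 := by gcongr
    _ < 54.6 := by norm_num

lemma sqrt3_gt : (1.732 : ℝ) < √3 := by
  rw [Real.lt_sqrt (by norm_num)]
  norm_num

/-- the first bound -/
lemma yn_lt (hPAR : S_PAR) {n : ℕ} (hn : 8 ≤ n) : yn n / 2 < Es n := by
  have hn4 : 4 ≤ n := by omega
  have h3 := third_le hPAR hn4
  have h1 := low_one
  obtain ⟨p1, p2, p3, p4, p5, p6, -⟩ := hPAR n hn4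
  have h2 := low_two p3
  have hn8 : (8 : ℝ) ≤ n := by exact_mod_cast hn
  have hpi := Real.pi_pos
  have hga : 0.9238 < ga n := by
    have hq : π / n ≤ π / 8 := div_le_div_of_nonneg_left hpi.le (by norm_num) hn8
    have hq0 : 0 < π / n := by positivity
    have h4 : Real.cos (π / 8) ≤ ga n :=
      Real.cos_le_cos_of_nonneg_of_le_pi hq0.le (by linarith) hq
    refine lt_of_lt_of_le ?_ h4
    rw [Real.cos_pi_div_eight]
    have h5 : (1.4142 : ℝ) < √2 := by
      rw [Real.lt_sqrt (by norm_num)]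
      norm_num
    have h6 : (1.8476 : ℝ) < √(2 + √2) := by
      rw [Real.lt_sqrt (by norm_num)]
      nlinarith
    linarith
  have hC : Ch n < 1.217 := by
    have hC : Ch n = 2 + ga n - 2 * ga n ^ 2 := rfl
    rw [hC]
    nlinarith
  have hy2 : yn n < 0.652 := by
    by_contra hcon
    push Not at hcon
    have h4 : Real.cosh 0.652 ≤ Real.cosh (yn n) := by
      rw [Real.cosh_le_cosh, abs_of_nonneg (by norm_num), abs_of_nonneg p5.le]
      exact hcon
    have h5 : (1.217 : ℝ) < Real.cosh 0.652 := by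
      have h6 := cosh_low 0.326 (by norm_num)
      have h7 := Real.cosh_two_mul 0.326
      have h8 := Real.cosh_sq 0.326
      rw [show (2 : ℝ) * 0.326 = 0.652 by norm_num] at h7
      nlinarith
    rw [p6] at h4
    linarith
  have hs3 := sqrt3_gt
  have hlog : Real.log (2 * √3) + Real.log ((2 * Ch n + 2) * (2 * Ch n + 1)) =
      Real.log (2 * √3 * ((2 * Ch n + 2) * (2 * Ch n + 1))) :=
    (Real.log_mul (by positivity) (by positivity)).symm
  have hfin : 6 * yn n < Real.log (2 * √3 * ((2 * Ch n + 2) * (2 * Ch n + 1))) := by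
    rw [Real.lt_log_iff_exp_lt (by positivity)]
    rcases le_or_gt (yn n) 0.61 with hy | hy
    · have e1 : Real.exp (6 * yn n) ≤ Real.exp (4 - 0.34) :=
        Real.exp_le_exp.2 (by linarith)
      have e2 : Real.exp (4 - 0.34) * Real.exp 0.34 = Real.exp 4 := by
        rw [← Real.exp_add]
        norm_num
      have e3 : 1 + 0.34 + 0.34 ^ 2 / 2 ≤ Real.exp (0.34 : ℝ) :=
        Real.quadratic_le_exp_of_nonneg (by norm_num)
      have e4 := exp_four
      have e5 : Real.exp (4 - 0.34) < 40 := by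
        by_contra hcon
        push Not at hcon
        nlinarith [Real.exp_pos (0.34 : ℝ)]
      have e6 : (12 : ℝ) ≤ (2 * Ch n + 2) * (2 * Ch n + 1) := by nlinarith
      nlinarith
    · have e0 := cosh_low (yn n) p5.le
      rw [p6] at e0
      have e0' : 1.186 < Ch n := by nlinarith
      have e1 : Real.exp (6 * yn n) ≤ Real.exp (4 - 0.088) :=
        Real.exp_le_exp.2 (by linarith)
      have e2 : Real.exp (4 - 0.088) * Real.exp 0.088 = Real.exp 4 := by
        rw [← Real.exp_add]
        norm_num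
      have e3 : 1 + 0.088 + 0.088 ^ 2 / 2 ≤ Real.exp (0.088 : ℝ) :=
        Real.quadratic_le_exp_of_nonneg (by norm_num)
      have e4 := exp_four
      have e5 : Real.exp (4 - 0.088) < 50.1 := by
        by_contra hcon
        push Not at hcon
        nlinarith [Real.exp_pos (0.088 : ℝ)]
      have e6 : (14.74 : ℝ) ≤ (2 * Ch n + 2) * (2 * Ch n + 1) := by nlinarith
      nlinarith
  linarith

theorem t_G6 : S_G6 := by
  intro hPAR n hn
  have hn4 : 4 ≤ n := by omega
  refine ⟨yn_lt hPAR hn, fun δ hδ => ?_⟩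
  exact lt_of_le_of_lt (side_le (hPAR n hn4).2.2.1 hδ.1 hδ.2) (half_lt hPAR hn4)

end Pool.Agent.Y51.TK
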