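import Pool.Agent.Y472.K.Defs

/-!
# Turk's head knots (project of helper472): properties of the parameters (job TK-PAR)
-/

set_option autoImplicit false

namespace Pool.Agent.Y51.TK

open Finset Filter Topology MeasureTheory Pool.Agent.W711.HT Pool.Agent.Y472.K
open scoped Real

/-- a primitive of `sinh y / (cosh y - cos 2 π t)` -/
lemma hasDerivAt_prim (y t : ℝ) (hs : 0 < Real.sin (π * t)) :
    HasDerivAt (fun t => -(1 / π) * Real.arctan (Real.sinh (y / 2) * Real.cos (π * t) /
      (Real.cosh (y / 2) * Real.sin (π * t))))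
      (Real.sinh y / (Real.cosh y - Real.cos (2 * π * t))) t := by
  have hpi := Real.pi_pos
  have hK : 0 < Real.cosh (y / 2) := Real.cosh_pos _
  have e1 : HasDerivAt (fun t : ℝ => π * t) π t := by
    simpa using (hasDerivAt_id t).const_mul π
  have e2 : HasDerivAt (fun t : ℝ => Real.sinh (y / 2) * Real.cos (π * t))
      (Real.sinh (y / 2) * (-Real.sin (π * t) * π)) t := (e1.cos).const_mul _
  have e3 : HasDerivAt (fun t : ℝ => Real.cosh (y / 2) * Real.sin (π * t))
      (Real.cosh (y / 2) * (Real.cos (π * t) * π)) t := (e1.sin).const_mul _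
  have hne : Real.cosh (y / 2) * Real.sin (π * t) ≠ 0 := (mul_pos hK hs).ne'
  have e4 := ((e2.div e3 hne).arctan).const_mul (-(1 / π))
  refine e4.congr_deriv ?_
  simp only [Pi.div_apply]
  have h1 : Real.sinh y = 2 * Real.sinh (y / 2) * Real.cosh (y / 2) := by
    rw [← Real.sinh_two_mul]
    congr 1
    ring
  have h2 : Real.cosh y = Real.cosh (y / 2) ^ 2 + Real.sinh (y / 2) ^ 2 := by
    rw [← Real.cosh_two_mul]
    congr 1
    ring
  have h3 : Real.cos (2 * π * t) = 2 * Real.cos (π * t) ^ 2 - 1 := by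
    rw [← Real.cos_two_mul]
    congr 1
    ring
  have h4 : Real.cosh (y / 2) ^ 2 = Real.sinh (y / 2) ^ 2 + 1 := Real.cosh_sq _
  have h5 : Real.sin (π * t) ^ 2 + Real.cos (π * t) ^ 2 = 1 := Real.sin_sq_add_cos_sq _
  rw [h1, h2, h3]
  generalize Real.sinh (y / 2) = S at h4 ⊢
  generalize Real.cosh (y / 2) = K at h4 hK hne ⊢
  generalize Real.sin (π * t) = s at hs h5 hne ⊢
  generalize Real.cos (π * t) = c at h5 ⊢
  have d1 : 0 < S ^ 2 + s ^ 2 := by positivity
  have d2 : K ^ 2 + S ^ 2 - (2 * c ^ 2 - 1) = 2 * (S ^ 2 + s ^ 2) := by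
    linear_combination h4 - 2 * h5
  have d3 : 1 + (S * c / (K * s)) ^ 2 = (S ^ 2 + s ^ 2) / (K * s) ^ 2 := by
    rw [eq_div_iff (by positivity), add_mul, div_pow, div_mul_cancel₀ _ (by positivity)]
    linear_combination s ^ 2 * h4 + S ^ 2 * h5
  rw [d2, d3]
  have d4 : (S * (-s * π) * (K * s) - S * c * (K * (c * π))) = -(S * K * π) := by
    linear_combination -(S * K * π) * h5
  rw [d4]
  field_simp

theorem t_PAR : S_PAR := by
  intro n hn
  have hn4 : (4 : ℝ) ≤ n := by exact_mod_cast hn
  have hn0 : (0 : ℝ) < n := by linarith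
  have hpi := Real.pi_pos
  have hq : π / n ≤ π / 4 := div_le_div_of_nonneg_left hpi.le (by norm_num) hn4
  have hq0 : 0 < π / n := by positivity
  have g1 : √2 / 2 ≤ ga n := by
    rw [← Real.cos_pi_div_four, ga]
    exact Real.cos_le_cos_of_nonneg_of_le_pi hq0.le (by linarith) hq
  have g2 : 1 / 2 < ga n := by
    have h : (1 : ℝ) < √2 := by
      rw [Real.lt_sqrt (by norm_num)]
      norm_num
    linarith
  have g3 : ga n < 1 := by
    have h := Real.cos_lt_cos_of_nonneg_of_le_pi le_rfl (by linarith : π / n ≤ π) hq0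
    rwa [Real.cos_zero] at h
  have hC : Ch n = 2 + ga n - 2 * ga n ^ 2 := rfl
  have hg : ga n = Real.cos (π / n) := rfl
  have hbs : bs n = Real.arccos (1 / 2 - ga n) / (2 * π) := rfl
  have hyn : yn n = Real.arsinh (√(Ch n ^ 2 - 1)) := rfl
  generalize ga n = g at g1 g2 g3 hC hg hbs ⊢
  have c1 : 1 < Ch n := by
    rw [hC]
    nlinarith
  have c2 : Ch n < 17 / 8 := by
    rw [hC]
    nlinarith
  have hs0 : 0 < Ch n ^ 2 - 1 := by nlinarith
  have y1 : 0 < yn n := by
    rw [hyn, Real.arsinh_pos_iff]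
    exact Real.sqrt_pos.2 hs0
  have y2 : Real.cosh (yn n) = Ch n := by
    rw [hyn, Real.cosh_arsinh, Real.sq_sqrt hs0.le, add_sub_cancel, Real.sqrt_sq (by linarith)]
  have b0 : 2 * π * bs n = Real.arccos (1 / 2 - g) := by
    rw [hbs]
    field_simp
  have hcos : Real.cos (2 * π * bs n) = 1 / 2 - g := by
    rw [b0, Real.cos_arccos (by linarith) (by linarith)]
  have b1 : 1 / 4 < bs n := by
    have h := Real.arccos_lt_arccos (by linarith : -1 ≤ 1 / 2 - g) (by linarith : 1 / 2 - g < 0)
      (by norm_num)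
    rw [Real.arccos_zero, ← b0] at h
    refine lt_of_mul_lt_mul_left ?_ (show 0 ≤ 2 * π by positivity)
    linarith
  have b2 : bs n < 1 / 3 := by
    have h := Real.arccos_lt_arccos (by norm_num : (-1 : ℝ) ≤ -(1 / 2))
      (by linarith : -(1 / 2) < 1 / 2 - g) (by linarith)
    have h1 : Real.arccos (-(1 / 2)) = 2 * π / 3 := by
      have h2 : Real.cos (2 * π / 3) = -(1 / 2) := by
        rw [show 2 * π / 3 = π - π / 3 by ring, Real.cos_pi_sub, Real.cos_pi_div_three]
      rw [← h2, Real.arccos_cos (by positivity) (by linarith)]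
    rw [h1, ← b0] at h
    refine lt_of_mul_lt_mul_left ?_ (show 0 ≤ 2 * π by positivity)
    linarith
  have hsq : 2 * Ch n - 2 * Real.cos (2 * π * bs n) = 4 * Real.sin (2 * π * bs n) ^ 2 := by
    rw [Real.sin_sq, hcos, hC]
    ring
  refine ⟨g2, g3, c1, c2, y1, y2, b1, b2, hcos, hsq, ?_, ?_⟩
  · rw [hsq, show 4 * Real.sin (2 * π * bs n) ^ 2 = (2 * Real.sin (2 * π * bs n)) ^ 2 by ring,
      Real.log_pow]
    norm_num
  · have hsin : ∀ t ∈ Set.uIcc (bs n) (1 - bs n), 0 < Real.sin (π * t) := by
      intro t ht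
      rw [Set.uIcc_of_le (by linarith)] at ht
      apply Real.sin_pos_of_pos_of_lt_pi
      · exact mul_pos hpi (by linarith [ht.1])
      · have := mul_lt_mul_of_pos_left (show t < 1 by linarith [ht.2]) hpi
        linarith
    have hden : ∀ t : ℝ, 0 < Ch n - Real.cos (2 * π * t) := fun t => by
      linarith [Real.cos_le_one (2 * π * t)]
    have hint : IntervalIntegrable (fun t => Real.sinh (yn n) / (Ch n - Real.cos (2 * π * t)))
        volume (bs n) (1 - bs n) := by
      apply Continuous.intervalIntegrable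
      refine continuous_const.div (by fun_prop) (fun t => (hden t).ne')
    have hI := intervalIntegral.integral_eq_sub_of_hasDerivAt (a := bs n) (b := 1 - bs n)
      (f := fun t => -(1 / π) * Real.arctan (Real.sinh (yn n / 2) * Real.cos (π * t) /
      (Real.cosh (yn n / 2) * Real.sin (π * t))))
      (f' := fun t => Real.sinh (yn n) / (Ch n - Real.cos (2 * π * t))) (fun t ht => by
        have h := hasDerivAt_prim (yn n) t (hsin t ht)
        rwa [y2] at h) hint
    rw [hI]
    have r1 : π * (1 - bs n) = π - π * bs n := by ring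
    rw [r1, Real.cos_pi_sub, Real.sin_pi_sub]
    have r2 : Real.sinh (yn n / 2) * -Real.cos (π * bs n) /
        (Real.cosh (yn n / 2) * Real.sin (π * bs n)) =
        -(Real.sinh (yn n / 2) * Real.cos (π * bs n) /
          (Real.cosh (yn n / 2) * Real.sin (π * bs n))) := by ring
    rw [r2, Real.arctan_neg]
    have hS : 0 < Real.sinh (yn n / 2) := Real.sinh_pos_iff.2 (by linarith)
    have hK : 0 < Real.cosh (yn n / 2) := Real.cosh_pos _
    have hp1 : 0 < π * bs n := mul_pos hpi (by linarith)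
    have hp2 : π * bs n < π / 2 := by
      have := mul_lt_mul_of_pos_left (show bs n < 1 / 2 by linarith) hpi
      linarith
    have hsb : 0 < Real.sin (π * bs n) := Real.sin_pos_of_pos_of_lt_pi hp1 (by linarith)
    have hcb : 0 < Real.cos (π * bs n) := Real.cos_pos_of_mem_Ioo ⟨by linarith, hp2⟩
    have hm : π / (2 * n) = π / n / 2 := by
      field_simp
    have hsn : 0 < Real.sin (π / (2 * n)) :=
      Real.sin_pos_of_pos_of_lt_pi (by positivity) (by rw [hm]; linarith)
    have hcn : 0 < Real.cos (π / (2 * n)) :=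
      Real.cos_pos_of_mem_Ioo ⟨by rw [hm]; linarith, by rw [hm]; linarith⟩
    have hT : Real.sinh (yn n / 2) * Real.cos (π * bs n) /
          (Real.cosh (yn n / 2) * Real.sin (π * bs n)) = Real.tan (π / (2 * n)) := by
      rw [Real.tan_eq_sin_div_cos, div_eq_div_iff (by positivity) hcn.ne']
      have hp : 0 ≤ Real.sinh (yn n / 2) * Real.cos (π * bs n) * Real.cos (π / (2 * n)) := by
        positivity
      have hq' : 0 ≤ Real.sin (π / (2 * n)) * (Real.cosh (yn n / 2) * Real.sin (π * bs n)) := by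
        positivity
      refine (sq_eq_sq₀ hp hq').1 ?_
      have u1 : Real.cosh (yn n / 2) ^ 2 + Real.sinh (yn n / 2) ^ 2 = Ch n := by
        rw [← Real.cosh_two_mul, ← y2]
        congr 1
        ring
      have u2 : Real.cosh (yn n / 2) ^ 2 = Real.sinh (yn n / 2) ^ 2 + 1 := Real.cosh_sq _
      have u3 : Real.cos (2 * π * bs n) = 2 * Real.cos (π * bs n) ^ 2 - 1 := by
        rw [← Real.cos_two_mul]
        congr 1
        ring
      have u4 : Real.cos (π / n) = 2 * Real.cos (π / (2 * n)) ^ 2 - 1 := by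
        rw [← Real.cos_two_mul, hm]
        congr 1
        ring
      have v1 : Real.sinh (yn n / 2) ^ 2 = (Ch n - 1) / 2 := by linarith
      have v2 : Real.cosh (yn n / 2) ^ 2 = (Ch n + 1) / 2 := by linarith
      have v3 : Real.cos (π * bs n) ^ 2 = (3 / 2 - g) / 2 := by
        rw [hcos] at u3
        linarith
      have v4 : Real.sin (π * bs n) ^ 2 = (1 / 2 + g) / 2 := by
        rw [Real.sin_sq, v3]
        ring
      have v5 : Real.cos (π / (2 * n)) ^ 2 = (1 + g) / 2 := by
        rw [← hg] at u4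
        linarith
      have v6 : Real.sin (π / (2 * n)) ^ 2 = (1 - g) / 2 := by
        rw [Real.sin_sq, v5]
        ring
      rw [mul_pow, mul_pow, mul_pow, mul_pow, v1, v2, v3, v4, v5, v6, hC]
      ring
    rw [hT, Real.arctan_tan (by rw [hm]; linarith) (by rw [hm]; linarith)]
    field_simp
    norm_num

end Pool.Agent.Y51.TK
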