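import Pool.Agent.Y472.K.Defs

/-!
# Turk's head knots (project of helper472): assembly of `STAR` for `n ≥ 8` and of `STARX`
(job TK-ST8)
-/

set_option autoImplicit false

namespace Pool.Agent.Y51.TK

open Finset Filter Topology MeasureTheory Pool.Agent.W711.HT Pool.Agent.Y472.K
open scoped Real

theorem t_ST8 : S_ST8 := by
  intro hPAR hJEN hG1 hG2 hG3 hG5 hG6
  have hG1' := hG1 hJEN
  have hG3' := hG3 hPAR hJEN
  have hG6' := hG6 hPAR
  have hsym : ∀ n : ℕ, 4 ≤ n → Es n = ee (Ch n) (1 - 2 * bs n) := by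
    intro n hn
    obtain ⟨h1, h2, h3, h4, h5, h6, h7, h8, h9, h10, h11, h12⟩ := hPAR n hn
    have h := (hG2 (yn n) (1 - bs n) (bs n) h5 (by linarith) (by linarith) (by linarith)
      (by linarith)).2.2 (by ring)
    rw [h6] at h
    rw [Es, h]
    congr 1
    ring
  refine ⟨?_, ?_⟩
  · intro n _ hn a b hP hne
    have hn4 : 4 ≤ n := by omega
    obtain ⟨h1, h2, h3, h4, h5, h6, h7, h8, h9, h10, h11, h12⟩ := hPAR n hn4
    obtain ⟨δ₁, g1, g2, g3, g4, g5, g6, g7⟩ := hG3' n hn4
    obtain ⟨k1, k2⟩ := hG6' n hn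
    have hs := hsym n hn4
    -- the symmetric pairs
    have e3 : ∀ δ : ℝ, 0 ≤ δ → δ ≤ 1 → ee (Ch n) δ ≤ Es n ∧
        (δ ≠ 1 - 2 * bs n → ee (Ch n) δ < Es n) := by
      intro δ d0 d1
      have key : δ ≠ 1 - 2 * bs n → ee (Ch n) δ < Es n := by
        intro hne
        rcases lt_or_gt_of_ne hne with h | h
        · rw [hs]
          exact g4 ⟨d0, h.le⟩ ⟨by linarith, le_rfl⟩ h
        · rcases le_or_gt δ δ₁ with h' | h'
          · rw [hs]
            exact g5 ⟨le_rfl, g1.le⟩ ⟨h.le, h'⟩ h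
          · have h0 := g6.monotoneOn ⟨h'.le, d1⟩ ⟨g2.le, le_rfl⟩ d1
            rw [g7] at h0
            exact lt_of_le_of_lt h0 k1
      refine ⟨?_, key⟩
      by_cases h : δ = 1 - 2 * bs n
      · rw [h, hs]
      · exact (key h).le
    -- all the pairs
    have hpair : ∀ x a' b' : ℝ, |x| ≤ π → 0 ≤ b' → b' ≤ a' → a' ≤ 1 →
        Ep x (yn n) a' b' ≤ Es n ∧
          (¬ (a' = 1 - bs n ∧ b' = bs n) → Ep x (yn n) a' b' < Es n) := by
      intro x a' b' hx hb hba ha
      by_cases hc : b' ≤ 1 / 2 ∧ 1 / 2 ≤ a'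
      · obtain ⟨c1, c2⟩ := hc
        have e1 : Ep x (yn n) a' b' ≤ Ep 0 (yn n) a' b' := by
          unfold Ep
          have := (hG1' x (yn n) a' b' h5 hx hb c1 c2 ha).1
          linarith
        have e2 := hG2 (yn n) a' b' h5 hb c1 c2 ha
        rw [h6] at e2
        obtain ⟨f1, f2⟩ := e3 (a' - b') (by linarith) (by linarith)
        refine ⟨e1.trans (e2.1.trans f1), fun hne => ?_⟩
        by_cases hs : a' + b' = 1
        · have : a' - b' ≠ 1 - 2 * bs n := by
            intro h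
            apply hne
            constructor <;> linarith
          exact lt_of_le_of_lt (e1.trans e2.1) (f2 this)
        · exact lt_of_le_of_lt e1 (lt_of_lt_of_le (e2.2.1 hs) f1)
      · have hc' : a' ≤ 1 / 2 ∨ 1 / 2 ≤ b' := by
          by_contra h
          push Not at h
          exact hc ⟨h.2.le, h.1.le⟩
        have hδ : a' - b' ∈ Set.Icc (0 : ℝ) (1 / 2) := by
          constructor
          · linarith
          · rcases hc' with h | h <;> linarith
        have e1 := hG5 x (yn n) a' b' h5 hb hba ha hc'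
        rw [h6] at e1
        have e2 := lt_of_le_of_lt e1 (k2 _ hδ)
        exact ⟨e2.le, fun _ => e2⟩
    refine ⟨yn n, h5, fun x hx => ?_⟩
    have hx' : |x| ≤ π := abs_le.2 ⟨hx.1, hx.2⟩
    have hs1 : ∑ r, (Ep x (yn n) (a r) (b r) + Ep x (yn n) (a (r + 1)) (b r)) <
        ∑ _r : Fin n, (Es n + Es n) := by
      apply Finset.sum_lt_sum
      · intro r _
        exact add_le_add (hpair x _ _ hx' (hP.nn r) (hP.le r) (hP.le1 r)).1
          (hpair x _ _ hx' (hP.nn r) (hP.le' r) (hP.le1 (r + 1))).1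
      · obtain ⟨r, hr⟩ := not_forall.1 hne
        exact ⟨r, mem_univ _, add_lt_add_of_lt_of_le
          ((hpair x _ _ hx' (hP.nn r) (hP.le r) (hP.le1 r)).2 hr)
          (hpair x _ _ hx' (hP.nn r) (hP.le' r) (hP.le1 (r + 1))).1⟩
    rw [sum_const, card_univ, Fintype.card_fin, nsmul_eq_mul] at hs1
    unfold HH Dn
    linarith
  · intro n hn x hx hx0
    obtain ⟨h1, h2, h3, h4, h5, h6, h7, h8, h9, h10, h11, h12⟩ := hPAR n hn
    have h := (hG1' x (yn n) (1 - bs n) (bs n) h5 (abs_le.2 ⟨hx.1, hx.2⟩) (by linarith)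
      (by linarith) (by linarith) (by linarith)).2 hx0 (by linarith) (by linarith)
    unfold Es Ep
    linarith

end Pool.Agent.Y51.TK
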